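import Pool.Agent.H488Z.Ros.Main

set_option autoImplicit false

namespace Pool.Agent.Results.MP_5f76cf_al.ACounterexample

open Pool.Agent.H488Z.Ros

/-- There is a non-amenable Polish group `G` with an unbounded maximal compatible left-invariant
metric `d` and a faithful continuous affine isometric action `α` on a real Hilbert space whose
cocycle `b g = α g 0` grows linearly (exponent `a = 1 > 1/2`). -/
theorem result : ∃ (G : Type) (_ : Group G) (_ : TopologicalSpace G) (_ : IsTopologicalGroup G)
    (_ : PolishSpace G) (d : MetricSpace G), IsMaximalMetric d ∧ (∀ R : ℝ, ∃ g, R < d.dist g 1) ∧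
    (∃ (H : Type) (_ : NormedAddCommGroup H) (_ : InnerProductSpace ℝ H) (_ : CompleteSpace H)
      (α : G →* (H ≃ᵃⁱ[ℝ] H)), Continuous (fun p : G × H => α p.1 p.2) ∧ Function.Injective α ∧
      ∃ C : ℝ, 0 < C ∧ ∀ g, d.dist g 1 - C ≤ ‖α g 0‖) ∧ ¬ Amenable G :=
  main

end Pool.Agent.Results.MP_5f76cf_al.ACounterexample
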